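import Pool.Agent.Q304.CJ.Path

set_option autoImplicit false

namespace Pool.Agent.Q304.CJ

universe u

variable {X : Type u}

open Cardinal

/-- One half of `c`-conjugacy: `g` is defined on the image of `α` and `αg = gβ`. -/
def Emb (α β : X ≃. X) : Prop :=
  ∃ g : X ≃. X, (∀ x y, α x = some y → ∃ z, g y = some z) ∧ α.trans g = g.trans β

/-- All numbers of components of `α` of a given sort are at most those of `β`. -/
def SameLe (α β : X ≃. X) : Prop :=
  (∀ n, #(orbit α '' Per α n) ≤ #(orbit β '' Per β n)) ∧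
  #(orbit α '' Bi α) ≤ #(orbit β '' Bi β) ∧
  #(orbit α '' Fwd α) ≤ #(orbit β '' Fwd β) ∧
  (∀ k, 0 < k → #(Term α k) ≤ #(Term β k)) ∧
  #(⋂ k, Term α k : Set X) ≤ #(⋂ k, Term β k : Set X)

section forward

variable {α β g : X ≃. X}

theorem E1 (hd : ∀ x y, α x = some y → ∃ z, g y = some z) (hg : α.trans g = g.trans β)
    {x y : X} (h : α x = some y) : ∃ x' y', g x = some x' ∧ g y = some y' ∧ β x' = some y' := by
  obtain ⟨y', hy'⟩ := hd x y h
  have h1 : (α.trans g) x = some y' := by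
    show (α x).bind g = some y'
    rw [h]; exact hy'
  rw [hg] at h1
  change (g x).bind β = some y' at h1
  rw [Option.bind_eq_some_iff] at h1
  obtain ⟨x', hx', hb⟩ := h1
  exact ⟨x', y', hx', hy', hb⟩

theorem E2 (hd : ∀ x y, α x = some y → ∃ z, g y = some z) (hg : α.trans g = g.trans β)
    {x x' y : X} (hx : g x = some x') (h : α x = some y) :
    ∃ y', g y = some y' ∧ β x' = some y' := by
  obtain ⟨x'', y', h1, h2, h3⟩ := E1 hd hg h
  rw [hx] at h1
  obtain rfl := Option.some.inj h1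
  exact ⟨y', h2, h3⟩

theorem E3 (hg : α.trans g = g.trans β) {x x' : X} (hx : g x = some x') (h : α x = none) :
    β x' = none := by
  have h1 : (α.trans g) x = none := by
    show (α x).bind g = none
    rw [h]; rfl
  rw [hg] at h1
  change (g x).bind β = none at h1
  rw [hx] at h1
  exact h1

theorem E4 (hd : ∀ x y, α x = some y → ∃ z, g y = some z) (hg : α.trans g = g.trans β)
    {k : ℕ} {x x' y : X} (hx : g x = some x') (h : Path α k x y) :
    ∃ y', g y = some y' ∧ Path β k x' y' := by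
  induction k generalizing x x' with
  | zero =>
    obtain rfl : x = y := h
    exact ⟨x', hx, rfl⟩
  | succ k ih =>
    obtain ⟨z, hz, h⟩ := h
    obtain ⟨z', hz', hb⟩ := E2 hd hg hx hz
    obtain ⟨y', h1, h2⟩ := ih hz' h
    exact ⟨y', h1, z', hb, h2⟩

theorem E5 (hd : ∀ x y, α x = some y → ∃ z, g y = some z) (hg : α.trans g = g.trans β)
    {k : ℕ} {x x' y y' : X} (hx : g x = some x') (hy : g y = some y') (h : Path β k x' y') :
    Path α k x y := by
  induction k generalizing x x' with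
  | zero =>
    obtain rfl : x' = y' := h
    exact g.inj hx hy
  | succ k ih =>
    obtain ⟨z', hz', h⟩ := h
    cases hz : α x with
    | none =>
      have := E3 hg hx hz
      rw [this] at hz'
      cases hz'
    | some z =>
      obtain ⟨z'', h1, h2⟩ := E2 hd hg hx hz
      rw [h2] at hz'
      obtain rfl := Option.some.inj hz'
      exact ⟨z, hz, ih h1 h⟩

theorem orb_le (hd : ∀ x y, α x = some y → ∃ z, g y = some z) (hg : α.trans g = g.trans β)
    {C D : Set X} (h : ∀ x ∈ C, ∃ x', g x = some x' ∧ x' ∈ D) :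
    #(orbit α '' C) ≤ #(orbit β '' D) := by
  have h1 : ∀ O : (orbit α '' C : Set (Set X)), ∃ x x', x ∈ C ∧ orbit α x = O.1 ∧
      g x = some x' ∧ x' ∈ D := by
    rintro ⟨O, x, hx, rfl⟩
    obtain ⟨x', h1, h2⟩ := h x hx
    exact ⟨x, x', hx, rfl, h1, h2⟩
  choose r r' hr using h1
  refine mk_le_of_injective
    (f := fun O => (⟨orbit β (r' O), r' O, (hr O).2.2.2, rfl⟩ : (orbit β '' D : Set (Set X)))) ?_
  intro O P hOP
  have h2 : orbit β (r' O) = orbit β (r' P) := congrArg Subtype.val hOP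
  rw [orbit_eq_iff] at h2
  have h3 : r P ∈ orbit α (r O) := by
    obtain ⟨k, h2 | h2⟩ := h2
    · exact ⟨k, Or.inl (E5 hd hg (hr O).2.2.1 (hr P).2.2.1 h2)⟩
    · exact ⟨k, Or.inr (E5 hd hg (hr P).2.2.1 (hr O).2.2.1 h2)⟩
  apply Subtype.ext
  rw [← (hr O).2.1, ← (hr P).2.1, orbit_eq_iff]
  exact h3

theorem set_le (hg : ∀ x y z, g x = some z → g y = some z → x = y) {C D : Set X}
    (h : ∀ x ∈ C, ∃ x', g x = some x' ∧ x' ∈ D) : #C ≤ #D := by
  have h1 : ∀ x : C, ∃ x', g x.1 = some x' ∧ x' ∈ D := fun x => h x.1 x.2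
  choose r hr using h1
  refine mk_le_of_injective (f := fun x => (⟨r x, (hr x).2⟩ : D)) ?_
  intro x y hxy
  have h2 : r x = r y := congrArg Subtype.val hxy
  apply Subtype.ext
  refine hg _ _ (r x) (hr x).1 ?_
  rw [h2]; exact (hr y).1

end forward

/-- An embedding of `α` into `β` gives all inequalities between the numbers of components. -/
theorem Emb.sameLe {α β : X ≃. X} (h : Emb α β) : SameLe α β := by
  obtain ⟨g, hd, hg⟩ := h
  have hfwd : ∀ x ∈ Fwd α, ∃ x', g x = some x' ∧ x' ∈ Fwd β := by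
    intro x hx
    obtain ⟨w, z, hz, _⟩ := (hx 1).1
    obtain ⟨x', _, hx', _, _⟩ := E1 hd hg hz
    refine ⟨x', hx', fun k => ⟨?_, fun hk hp => (hx k).2 hk (E5 hd hg hx' hx' hp)⟩⟩
    obtain ⟨y, hy⟩ := (hx k).1
    obtain ⟨y', _, h2⟩ := E4 hd hg hx' hy
    exact ⟨y', h2⟩
  have hback : ∀ x x' k, g x = some x' → (∃ y, Path α k y x) → ∃ y', Path β k y' x' := by
    intro x x' k hx' hy
    obtain ⟨y, hy⟩ := hy
    cases k with
    | zero => exact ⟨x', rfl⟩
    | succ k =>
      obtain ⟨z, hz, hy⟩ := hy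
      obtain ⟨y', z', hy', hz', hb⟩ := E1 hd hg hz
      obtain ⟨x'', h1, h2⟩ := E4 hd hg hz' hy
      rw [hx'] at h1
      obtain rfl := Option.some.inj h1
      exact ⟨y', z', hb, h2⟩
  have hterm : ∀ k, ∀ x ∈ Term α k, x ∈ Term α 1 → ∃ x', g x = some x' ∧ x' ∈ Term β k := by
    rintro k x ⟨hx, hy⟩ ⟨_, y, z, hz, h1⟩
    obtain rfl : z = x := h1
    obtain ⟨y', x', _, hx', _⟩ := E1 hd hg hz
    exact ⟨x', hx', E3 hg hx' hx, hback _ _ k hx' hy⟩
  refine ⟨fun n => orb_le hd hg ?_, orb_le hd hg ?_, orb_le hd hg hfwd, fun k hk => ?_, ?_⟩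
  · intro x hx
    obtain ⟨n, rfl⟩ : ∃ m, n = m + 1 := ⟨n - 1, by have := hx.1; omega⟩
    obtain ⟨z, hz, _⟩ := hx.2.1
    obtain ⟨x', _, hx', _, _⟩ := E1 hd hg hz
    refine ⟨x', hx', hx.1, ?_, fun m h0 hm hp => hx.2.2 m h0 hm (E5 hd hg hx' hx' hp)⟩
    obtain ⟨x'', h1, h2⟩ := E4 hd hg hx' hx.2.1
    rw [hx'] at h1
    obtain rfl := Option.some.inj h1
    exact h2
  · rintro x ⟨hx, hb⟩
    obtain ⟨x', hx', hf⟩ := hfwd x hx
    exact ⟨x', hx', hf, fun k => hback x x' k hx' (hb k)⟩
  · refine set_le (g := g) (fun x y z h1 h2 => g.inj h1 h2) fun x hx => ?_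
    exact hterm k x hx (term_antitone hk hx)
  · refine set_le (g := g) (fun x y z h1 h2 => g.inj h1 h2) fun x hx => ?_
    rw [Set.mem_iInter] at hx
    obtain ⟨x', hx', _⟩ := hterm 1 x (hx 1) (hx 1)
    refine ⟨x', hx', ?_⟩
    rw [Set.mem_iInter]
    intro k
    obtain ⟨x'', h1, h2⟩ := hterm k x (hx k) (hx 1)
    rw [hx'] at h1
    obtain rfl := Option.some.inj h1
    exact h2

/-- The relation generated by the seeds `(s i, s' i)`. -/
def G {I : Type*} (α β : X ≃. X) (s s' : I → X) (x x' : X) : Prop :=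
  ∃ i k, (Path α k (s i) x ∧ Path β k (s' i) x') ∨ (Path α k x (s i) ∧ Path β k x' (s' i))

theorem G_fun {I : Type*} {α β : X ≃. X} {s s' : I → X}
    (hs : ∀ i j, s j ∈ orbit α (s i) → i = j)
    (hp : ∀ i k, Path α k (s i) (s i) → Path β k (s' i) (s' i)) {x x1 x2 : X}
    (h1 : G α β s s' x x1) (h2 : G α β s s' x x2) : x1 = x2 := by
  obtain ⟨i, k, h1⟩ := h1
  obtain ⟨j, l, h2⟩ := h2
  have hi : x ∈ orbit α (s i) := by
    rcases h1 with h1 | h1
    · exact ⟨k, Or.inl h1.1⟩
    · exact ⟨k, Or.inr h1.1⟩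
  have hj : s j ∈ orbit α x := by
    rcases h2 with h2 | h2
    · exact ⟨l, Or.inr h2.1⟩
    · exact ⟨l, Or.inl h2.1⟩
  obtain rfl := hs i j (mem_orbit_trans hi hj)
  -- it is enough to treat `k ≤ l` in the symmetric cases
  have FF : ∀ k l x1 x2, k ≤ l → Path α k (s i) x → Path α l (s i) x → Path β k (s' i) x1 →
      Path β l (s' i) x2 → x1 = x2 := by
    intro k l x1 x2 hkl a b c d
    have h3 := path_sub hkl a b
    have h4 : Path α (l - k) (s i) (s i) := path_self_transfer ⟨k, Or.inr a⟩ h3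
    have h5 := path_trans (hp i _ h4) c
    rw [Nat.sub_add_cancel hkl] at h5
    exact path_unique h5 d
  have BB : ∀ k l x1 x2, k ≤ l → Path α k x (s i) → Path α l x (s i) → Path β k x1 (s' i) →
      Path β l x2 (s' i) → x1 = x2 := by
    intro k l x1 x2 hkl a b c d
    have h4 := path_sub hkl a b
    have h5 := path_trans c (hp i _ h4)
    rw [Nat.add_sub_cancel' hkl] at h5
    exact path_inj h5 d
  have FB : ∀ k l x1 x2, Path α k (s i) x → Path α l x (s i) → Path β k (s' i) x1 →
      Path β l x2 (s' i) → x1 = x2 := by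
    intro k l x1 x2 a b c d
    have h5 := hp i _ (path_trans a b)
    have h6 := path_sub (Nat.le_add_right k l) c h5
    rw [Nat.add_sub_cancel_left] at h6
    exact path_inj h6 d
  rcases h1 with ⟨a, c⟩ | ⟨a, c⟩ <;> rcases h2 with ⟨b, d⟩ | ⟨b, d⟩
  · rcases le_total k l with hkl | hkl
    · exact FF k l x1 x2 hkl a b c d
    · exact (FF l k x2 x1 hkl b a d c).symm
  · exact FB k l x1 x2 a b c d
  · exact (FB l k x2 x1 b a d c).symm
  · rcases le_total k l with hkl | hkl
    · exact BB k l x1 x2 hkl a b c d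
    · exact (BB l k x2 x1 hkl b a d c).symm

theorem G_symm {I : Type*} {α β : X ≃. X} {s s' : I → X} {x x' : X} :
    G α β s s' x x' ↔ G β α s' s x' x := by
  constructor <;>
  · rintro ⟨i, k, h | h⟩
    · exact ⟨i, k, Or.inl ⟨h.2, h.1⟩⟩
    · exact ⟨i, k, Or.inr ⟨h.2, h.1⟩⟩

/-- The partial injection with graph `R`. -/
theorem exists_pequiv {R : X → X → Prop} (h1 : ∀ x a b, R x a → R x b → a = b)
    (h2 : ∀ x y a, R x a → R y a → x = y) :
    ∃ g : X ≃. X, ∀ x a, g x = some a ↔ R x a := by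
  classical
  have key1 : ∀ x a, (if h : ∃ a, R x a then some h.choose else none) = some a ↔ R x a := by
    intro x a
    constructor
    · intro h
      split_ifs at h with hx
      rw [← Option.some.inj h]; exact hx.choose_spec
    · intro h
      have hx : ∃ a, R x a := ⟨a, h⟩
      rw [dif_pos hx, h1 x _ _ hx.choose_spec h]
  have key2 : ∀ x a, (if h : ∃ x, R x a then some h.choose else none) = some x ↔ R x a := by
    intro x a
    constructor
    · intro h
      split_ifs at h with hx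
      rw [← Option.some.inj h]; exact hx.choose_spec
    · intro h
      have hx : ∃ x, R x a := ⟨x, h⟩
      rw [dif_pos hx, h2 _ _ _ hx.choose_spec h]
  exact ⟨{ toFun := fun x => if h : ∃ a, R x a then some h.choose else none
           invFun := fun a => if h : ∃ x, R x a then some h.choose else none
           inv := fun x a => (key2 x a).trans (key1 x a).symm }, fun x a => key1 x a⟩

/-- Seeds in different components that cover all components of `α` give an embedding. -/
theorem emb_of_seeds {I : Type*} {α β : X ≃. X} {s s' : I → X}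
    (hs : ∀ i j, s j ∈ orbit α (s i) → i = j)
    (hs' : ∀ i j, s' j ∈ orbit β (s' i) → i = j)
    (hp : ∀ i k, Path α k (s i) (s i) ↔ Path β k (s' i) (s' i))
    (hc : ∀ x y, α x = some y → ∃ i, x ∈ orbit α (s i))
    (hf : ∀ i k x, Path α k (s i) x → ∃ x', Path β k (s' i) x' ∧ (α x = none → β x' = none))
    (hb : ∀ i k x, Path α k x (s i) → ∃ x', Path β k x' (s' i)) : Emb α β := by
  obtain ⟨g, hg⟩ := exists_pequiv (R := G α β s s')
    (fun x a b => G_fun hs fun i k => (hp i k).1)
    (fun x y a h1 h2 => G_fun hs' (fun i k => (hp i k).2) (G_symm.1 h1) (G_symm.1 h2))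
  have step : ∀ x x' y, G α β s s' x x' → α x = some y →
      ∃ y', β x' = some y' ∧ G α β s s' y y' := by
    rintro x x' y ⟨i, k, h⟩ hxy
    have F : ∀ k, Path α k (s i) x → Path β k (s' i) x' →
        ∃ y', β x' = some y' ∧ G α β s s' y y' := by
      intro k h1 h2
      obtain ⟨y', h3, _⟩ := hf i (k + 1) y (path_trans h1 (path_one hxy))
      obtain ⟨w, h4, h5⟩ := (path_add β k 1 _ _).1 h3
      obtain rfl := path_unique h2 h4
      obtain ⟨z, hz, h6⟩ := h5
      obtain rfl : z = y' := h6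
      exact ⟨z, hz, i, k + 1, Or.inl ⟨path_trans h1 (path_one hxy), h3⟩⟩
    rcases h with ⟨h1, h2⟩ | ⟨h1, h2⟩
    · exact F k h1 h2
    · cases k with
      | zero =>
        obtain rfl : x = s i := h1
        obtain rfl : x' = s' i := h2
        exact F 0 rfl rfl
      | succ k =>
        obtain ⟨z, hz, h1⟩ := h1
        obtain ⟨z', hz', h2⟩ := h2
        rw [hxy] at hz
        obtain rfl := Option.some.inj hz
        exact ⟨z', hz', i, k, Or.inr ⟨h1, h2⟩⟩
  have stop : ∀ x x', G α β s s' x x' → α x = none → β x' = none := by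
    rintro x x' ⟨i, k, h⟩ hxy
    have F : ∀ k, Path α k (s i) x → Path β k (s' i) x' → β x' = none := by
      intro k h1 h2
      obtain ⟨y', h3, h4⟩ := hf i k x h1
      obtain rfl := path_unique h2 h3
      exact h4 hxy
    rcases h with ⟨h1, h2⟩ | ⟨h1, h2⟩
    · exact F k h1 h2
    · cases k with
      | zero =>
        obtain rfl : x = s i := h1
        obtain rfl : x' = s' i := h2
        exact F 0 rfl rfl
      | succ k =>
        obtain ⟨z, hz, h1⟩ := h1
        rw [hxy] at hz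
        cases hz
  have dom : ∀ x y, α x = some y → ∃ x', G α β s s' x x' := by
    intro x y hxy
    obtain ⟨i, k, h | h⟩ := hc x y hxy
    · obtain ⟨x', h1, _⟩ := hf i k x h
      exact ⟨x', i, k, Or.inl ⟨h, h1⟩⟩
    · obtain ⟨x', h1⟩ := hb i k x h
      exact ⟨x', i, k, Or.inr ⟨h, h1⟩⟩
  refine ⟨g, ?_, ?_⟩
  · intro x y hxy
    obtain ⟨x', hx'⟩ := dom x y hxy
    obtain ⟨y', _, hy'⟩ := step x x' y hx' hxy
    exact ⟨y', (hg _ _).2 hy'⟩
  · ext x : 1
    show (α x).bind g = (g x).bind β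
    cases hx : α x with
    | none =>
      cases hgx : g x with
      | none => rfl
      | some x' =>
        have := stop x x' ((hg _ _).1 hgx) hx
        show none = β x'
        rw [this]
    | some y =>
      obtain ⟨x', hx'⟩ := dom x y hx
      obtain ⟨y', hb', hy'⟩ := step x x' y hx' hx
      have e1 : g x = some x' := (hg _ _).2 hx'
      have e2 : g y = some y' := (hg _ _).2 hy'
      rw [e1]
      show g y = β x'
      rw [e2, hb']

end Pool.Agent.Q304.CJ
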