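import Mathlib

/-!
# Injections between nested families of sets
-/

set_option autoImplicit false

namespace Pool.Agent.Q304.CJ

universe u

open Cardinal

/-- Systems of distinct representatives: at most `κ` requests, each with at least `κ` allowed
elements. -/
theorem exists_sdr {R B : Type u} {κ : Cardinal.{u}} (hR : #R ≤ κ) (S : R → Set B)
    (hS : ∀ r, κ ≤ #(S r)) : ∃ F : R → B, Function.Injective F ∧ ∀ r, F r ∈ S r := by
  classical
  obtain ⟨lt, wo, hlt⟩ := Cardinal.exists_ord_eq R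
  have hsmall : ∀ a : R, #{b // lt b a} < κ := by
    intro a
    refine lt_of_lt_of_le ?_ hR
    have h := Cardinal.card_typein_lt (r := lt) a hlt
    exact h
  have hex : ∀ (a : R) (f : (b : R) → lt b a → B), ∃ y ∈ S a, ∀ b (h : lt b a), y ≠ f b h := by
    intro a f
    by_contra hcon
    push Not at hcon
    have h1 : S a ⊆ Set.range (fun b : {b // lt b a} => f b.1 b.2) := by
      intro y hy
      obtain ⟨b, h, e⟩ := hcon y hy
      exact ⟨⟨b, h⟩, e.symm⟩
    have h2 := (mk_le_mk_of_subset h1).trans mk_range_le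
    exact absurd ((hS a).trans h2) (not_le.2 (hsmall a))
  choose pick hp1 hp2 using hex
  let F : R → B := wo.wf.fix pick
  have hF : ∀ a, F a = pick a (fun b _ => F b) := fun a => wo.wf.fix_eq pick a
  refine ⟨F, ?_, fun a => by rw [hF]; exact hp1 _ _⟩
  have hne : ∀ a b, lt b a → F a ≠ F b := by
    intro a b h
    rw [hF a]
    exact hp2 a _ b h
  intro a b hab
  rcases trichotomous_of lt a b with h | h | h
  · exact absurd hab.symm (hne b a h)
  · exact h
  · exact absurd hab (hne a b h)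

theorem mk_le_of_map {Q B : Type u} {D : Set B} (f : Q → B) (hf : Function.Injective f)
    (h : ∀ q, f q ∈ D) : #Q ≤ #D :=
  mk_le_of_injective (f := fun q => (⟨f q, h q⟩ : D))
    (fun _ _ hab => hf (congrArg Subtype.val hab))

theorem glue {A B Q : Type u} {P S : Set A} (j0 : A → B) (hj0 : Set.InjOn j0 P)
    (e : (S \ P : Set A) ⊕ Q → B) (he : Function.Injective e) (hav : ∀ z, e z ∉ j0 '' P) :
    ∃ j : A → B, Set.InjOn j S ∧ (∀ x ∈ P, j x = j0 x) ∧
      (∀ x (h : x ∈ S \ P), j x = e (Sum.inl ⟨x, h⟩)) ∧ ∀ q, e (Sum.inr q) ∉ j '' S := by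
  classical
  let j : A → B := fun x => if h : x ∈ S \ P then e (Sum.inl ⟨x, h⟩) else j0 x
  have h1 : ∀ x ∈ P, j x = j0 x := by
    intro x hx
    have : ¬ x ∈ S \ P := fun h => h.2 hx
    simp only [j, dif_neg this]
  have h2 : ∀ x (h : x ∈ S \ P), j x = e (Sum.inl ⟨x, h⟩) := by
    intro x hx
    simp only [j, dif_pos hx]
  refine ⟨j, ?_, h1, h2, ?_⟩
  · intro x hx y hy hxy
    by_cases hxP : x ∈ P <;> by_cases hyP : y ∈ P
    · rw [h1 x hxP, h1 y hyP] at hxy
      exact hj0 hxP hyP hxy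
    · rw [h1 x hxP, h2 y ⟨hy, hyP⟩] at hxy
      exact absurd ⟨x, hxP, hxy⟩ (hav _)
    · rw [h2 x ⟨hx, hxP⟩, h1 y hyP] at hxy
      exact absurd ⟨y, hyP, hxy.symm⟩ (hav _)
    · rw [h2 x ⟨hx, hxP⟩, h2 y ⟨hy, hyP⟩] at hxy
      have := Sum.inl.inj (he hxy)
      exact congrArg Subtype.val this
  · rintro q ⟨x, hx, hxq⟩
    by_cases hxP : x ∈ P
    · rw [h1 x hxP] at hxq
      exact absurd ⟨x, hxP, hxq⟩ (hav _)
    · rw [h2 x ⟨hx, hxP⟩] at hxq
      have := he hxq
      cases this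

/-- The inductive statement for `nested`. -/
def GoodAt {A B : Type u} (T : ℕ → Set A) (T' : ℕ → Set B) (k : ℕ) : Prop :=
  ∃ j : A → B, Set.InjOn j (T k) ∧ (∀ m, k ≤ m → ∀ x ∈ T m, j x ∈ T' m) ∧
    ((T' k).Infinite → #(T' k) ≤ #(T' k \ j '' T k : Set B))

variable {A B : Type u} {T : ℕ → Set A} {T' : ℕ → Set B}

theorem good_step (hT : Antitone T) (hT' : Antitone T') {k : ℕ} (hc : #(T k) ≤ #(T' k))
    (h : GoodAt T T' (k + 1)) : GoodAt T T' k := by
  obtain ⟨j, hj, hl, hinf⟩ := h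
  have hsub : T (k + 1) ⊆ T k := hT (Nat.le_succ k)
  have hsub' : T' (k + 1) ⊆ T' k := hT' (Nat.le_succ k)
  have himg : j '' T (k + 1) ⊆ T' (k + 1) := by
    rintro _ ⟨x, hx, rfl⟩
    exact hl (k + 1) le_rfl x hx
  have hcard1 : #(T k) = #(T (k + 1)) + #(T k \ T (k + 1) : Set A) := by
    rw [← mk_union_of_disjoint Set.disjoint_sdiff_right, Set.union_sdiff_cancel hsub]
  have hcard2 : #(T' k) = #(j '' T (k + 1) : Set B) + #(T' k \ j '' T (k + 1) : Set B) := by
    rw [← mk_union_of_disjoint Set.disjoint_sdiff_right,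
      Set.union_sdiff_cancel (himg.trans hsub')]
  have hcard3 : #(j '' T (k + 1) : Set B) = #(T (k + 1)) := mk_image_eq_of_injOn _ _ hj
  -- extension along an embedding
  have ext : ∀ (Q : Type u) (e : (T k \ T (k + 1) : Set A) ⊕ Q ↪ (T' k \ j '' T (k + 1) : Set B)),
      ∃ j' : A → B, Set.InjOn j' (T k) ∧ (∀ m, k ≤ m → ∀ x ∈ T m, j' x ∈ T' m) ∧
        #Q ≤ #(T' k \ j' '' T k : Set B) := by
    intro Q e
    obtain ⟨j', h1, h2, h3, h4⟩ := glue (P := T (k + 1)) (S := T k) j hj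
      (fun z => ((e z : (T' k \ j '' T (k + 1) : Set B)) : B))
      (fun a b hab => e.injective (Subtype.ext hab)) (fun z => (e z).2.2)
    refine ⟨j', h1, ?_, ?_⟩
    · intro m hm x hx
      rcases Nat.lt_or_ge k m with hkm | hkm
      · rw [h2 x (hT hkm hx)]
        exact hl m hkm x hx
      · obtain rfl : m = k := le_antisymm hkm hm
        by_cases hx1 : x ∈ T (m + 1)
        · rw [h2 x hx1]
          exact hsub' (hl (m + 1) le_rfl x hx1)
        · rw [h3 x ⟨hx, hx1⟩]
          exact (e _).2.1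
    · exact mk_le_of_map (fun q => ((e (Sum.inr q) : (T' k \ j '' T (k + 1) : Set B)) : B))
        (fun a b hab => Sum.inr.inj (e.injective (Subtype.ext hab)))
        (fun q => ⟨(e (Sum.inr q)).2.1, h4 q⟩)
  by_cases hfin : (T' k).Finite
  · have hfin1 : #(T (k + 1)) < ℵ₀ := by
      refine lt_of_le_of_lt (mk_le_mk_of_subset hsub) (lt_of_le_of_lt hc ?_)
      exact lt_aleph0_iff_set_finite.2 hfin
    have hle : #(T k \ T (k + 1) : Set A) ≤ #(T' k \ j '' T (k + 1) : Set B) := by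
      rw [hcard1, hcard2, hcard3, add_comm, add_comm #(T (k + 1))] at hc
      exact (add_le_add_iff_of_lt_aleph0 hfin1).1 hc
    obtain ⟨e⟩ := hle
    obtain ⟨j', h1, h2, _⟩ := ext PEmpty
      ((Equiv.sumEmpty _ _).toEmbedding.trans e)
    exact ⟨j', h1, h2, fun h => absurd hfin h⟩
  · have hinf1 : ℵ₀ ≤ #(T' k) := by
      rw [← not_lt]
      exact fun h => hfin (lt_aleph0_iff_set_finite.1 h)
    have hR : #(T' k) ≤ #(T' k \ j '' T (k + 1) : Set B) := by
      by_cases hfin2 : (T' (k + 1)).Finite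
      · have h1 : #(j '' T (k + 1) : Set B) < #(T' k) :=
          lt_of_lt_of_le (lt_aleph0_iff_set_finite.2 (hfin2.subset himg)) hinf1
        exact (eq_of_add_eq_of_aleph0_le hcard2.symm h1 hinf1).ge
      · have h1 := hinf hfin2
        have h2 : #(T' (k + 1)) ≤ #(T' k \ j '' T (k + 1) : Set B) :=
          h1.trans (mk_le_mk_of_subset (Set.sdiff_subset_sdiff_left hsub'))
        have h3 : #(j '' T (k + 1) : Set B) ≤ #(T' k \ j '' T (k + 1) : Set B) :=
          (mk_le_mk_of_subset himg).trans h2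
        have h4 : ℵ₀ ≤ #(T' k \ j '' T (k + 1) : Set B) := by
          refine le_trans ?_ h2
          rw [← not_lt]
          exact fun h => hfin2 (lt_aleph0_iff_set_finite.1 h)
        calc #(T' k) = #(j '' T (k + 1) : Set B) + #(T' k \ j '' T (k + 1) : Set B) := hcard2
          _ ≤ #(T' k \ j '' T (k + 1) : Set B) + #(T' k \ j '' T (k + 1) : Set B) := by gcongr
          _ = #(T' k \ j '' T (k + 1) : Set B) := add_eq_self h4
    have hle : #((T k \ T (k + 1) : Set A) ⊕ (T' k : Type u)) ≤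
        #(T' k \ j '' T (k + 1) : Set B) := by
      rw [mk_sum, lift_id, lift_id]
      calc #(T k \ T (k + 1) : Set A) + #(T' k) ≤ #(T' k) + #(T' k) := by
            gcongr
            exact (mk_le_mk_of_subset Set.sdiff_subset).trans hc
        _ = #(T' k) := add_eq_self hinf1
        _ ≤ _ := hR
    obtain ⟨e⟩ := hle
    obtain ⟨j', h1, h2, h3⟩ := ext (T' k) e
    exact ⟨j', h1, h2, fun _ => h3⟩

theorem good_base (hT : Antitone T) (hT' : Antitone T') (hc : ∀ k, #(T k) ≤ #(T' k))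
    (hinf : #(⋂ k, T k : Set A) ≤ #(⋂ k, T' k : Set B)) [Nonempty B] : ∃ K, GoodAt T T' K := by
  classical
  have stab : ∀ {C : Type u} (V : ℕ → Set C) (_ : Antitone V) (K : ℕ), (V K).Finite →
      ∃ N, ∀ m, N ≤ m → V m ⊆ ⋂ k, V k := by
    intro C V hV K hK
    have h1 : ∀ᶠ m in Filter.atTop, ∀ x ∈ (V K \ ⋂ k, V k : Set C), x ∉ V m := by
      rw [Filter.eventually_all_finite (hK.subset Set.sdiff_subset)]
      rintro x ⟨_, hx⟩
      rw [Set.mem_iInter] at hx
      push Not at hx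
      obtain ⟨n, hn⟩ := hx
      filter_upwards [Filter.eventually_ge_atTop n] with m hm hxm
      exact hn (hV hm hxm)
    obtain ⟨N, hN⟩ := Filter.eventually_atTop.1 h1
    refine ⟨max N K, fun m hm x hx => ?_⟩
    by_contra hcon
    exact hN m (le_trans (le_max_left _ _) hm) x ⟨hV (le_trans (le_max_right _ _) hm) hx, hcon⟩ hx
  obtain ⟨i⟩ := hinf
  let b0 : B := Classical.arbitrary B
  let j0 : A → B := fun x => if h : x ∈ ⋂ k, T k then (i ⟨x, h⟩ : B) else b0
  have hj0 : ∀ x (h : x ∈ ⋂ k, T k), j0 x = i ⟨x, h⟩ := fun x h => by simp only [j0, dif_pos h]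
  have hj0inj : Set.InjOn j0 (⋂ k, T k) := by
    intro x hx y hy hxy
    rw [hj0 x hx, hj0 y hy] at hxy
    exact congrArg Subtype.val (i.injective (Subtype.ext hxy))
  have hj0mem : ∀ x ∈ ⋂ k, T k, j0 x ∈ ⋂ k, T' k := by
    intro x hx
    rw [hj0 x hx]
    exact (i ⟨x, hx⟩).2
  by_cases hfin : ∃ K, (T' K).Finite
  · obtain ⟨K, hK⟩ := hfin
    have hKT : (T K).Finite := by
      rw [← lt_aleph0_iff_set_finite] at hK ⊢
      exact lt_of_le_of_lt (hc K) hK
    obtain ⟨N, hN⟩ := stab T hT K hKT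
    refine ⟨max N K, j0, ?_, ?_, ?_⟩
    · exact hj0inj.mono (hN _ (le_max_left _ _))
    · intro m hm x hx
      have h1 := hj0mem x (hN m (le_trans (le_max_left _ _) hm) hx)
      exact Set.mem_iInter.1 h1 m
    · intro h
      exact absurd (hK.subset (hT' (le_max_right N K))) h
  · push Not at hfin
    have hex : ∃ K, ∀ m, #(T' K) ≤ #(T' m) := by
      have hne : (Set.range fun k => #(T' k)).Nonempty := ⟨_, 0, rfl⟩
      obtain ⟨K, hK⟩ := Cardinal.lt_wf.min_mem _ hne
      refine ⟨K, fun m => ?_⟩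
      have := Cardinal.lt_wf.not_lt_min (Set.range fun k => #(T' k)) (x := #(T' m)) ⟨m, rfl⟩
      rw [← hK] at this
      exact not_lt.1 this
    obtain ⟨K, hK⟩ := hex
    have hκ : ℵ₀ ≤ #(T' K) := by
      rw [← not_lt]
      exact fun h => hfin K (lt_aleph0_iff_set_finite.1 h)
    refine ⟨K, ?_⟩
    rcases le_or_gt #(T' K) #(⋂ k, T' k : Set B) with h2 | h2
    · have hle : #((T K \ ∅ : Set A) ⊕ (T' K : Type u)) ≤ #(⋂ k, T' k : Set B) := by
        rw [mk_sum, lift_id, lift_id]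
        refine le_trans ?_ h2
        calc #(T K \ ∅ : Set A) + #(T' K) ≤ #(T' K) + #(T' K) := by
              gcongr
              exact (mk_le_mk_of_subset Set.sdiff_subset).trans (hc K)
          _ = #(T' K) := add_eq_self hκ
      obtain ⟨e⟩ := hle
      obtain ⟨j', h3, _, h4, h5⟩ := glue (P := ∅) (S := T K) (fun _ => b0) (Set.injOn_empty _)
        (fun z => ((e z : (⋂ k, T' k : Set B)) : B))
        (fun a b hab => e.injective (Subtype.ext hab)) (fun z => by simp)
      refine ⟨j', h3, ?_, fun _ => ?_⟩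
      · intro m hm x hx
        rw [h4 x ⟨hT hm hx, by simp⟩]
        exact Set.mem_iInter.1 (e _).2 m
      · exact mk_le_of_map (fun q => ((e (Sum.inr q) : (⋂ k, T' k : Set B)) : B))
          (fun a b hab => Sum.inr.inj (e.injective (Subtype.ext hab)))
          (fun q => ⟨Set.mem_iInter.1 (e (Sum.inr q)).2 K, h5 q⟩)
    · have hbig : ∀ m, K ≤ m → #(T' K) ≤ #(T' m \ ⋂ k, T' k : Set B) := by
        intro m hm
        have hm1 : #(T' m) = #(T' K) := le_antisymm (mk_le_mk_of_subset (hT' hm)) (hK m)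
        have hm2 : #(⋂ k, T' k : Set B) + #(T' m \ ⋂ k, T' k : Set B) = #(T' m) := by
          rw [← mk_union_of_disjoint Set.disjoint_sdiff_right,
            Set.union_sdiff_cancel (Set.iInter_subset _ m)]
        rw [hm1] at hm2
        exact (eq_of_add_eq_of_aleph0_le hm2 h2 hκ).ge
      have hlev : ∀ x : (T K \ ⋂ k, T k : Set A), ∃ n, K ≤ n ∧ ∀ m, x.1 ∈ T m → m ≤ n := by
        rintro ⟨x, hx1, hx2⟩
        rw [Set.mem_iInter] at hx2
        push Not at hx2
        obtain ⟨n, hn⟩ := hx2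
        refine ⟨max n K, le_max_right _ _, fun m hm => ?_⟩
        by_contra hcon
        push Not at hcon
        exact hn (hT (le_trans (le_max_left n K) hcon.le) hm)
      choose lev hlev1 hlev2 using hlev
      obtain ⟨F, hF1, hF2⟩ := exists_sdr (κ := #(T' K))
        (R := (T K \ ⋂ k, T k : Set A) ⊕ (T' K : Type u)) (by
          rw [mk_sum, lift_id, lift_id]
          calc #(T K \ ⋂ k, T k : Set A) + #(T' K) ≤ #(T' K) + #(T' K) := by
                gcongr
                exact (mk_le_mk_of_subset Set.sdiff_subset).trans (hc K)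
            _ = #(T' K) := add_eq_self hκ)
        (Sum.elim (fun x => T' (lev x) \ ⋂ k, T' k) (fun _ => T' K \ ⋂ k, T' k)) (by
          rintro (x | q)
          · exact hbig _ (hlev1 x)
          · exact hbig K le_rfl)
      obtain ⟨j', h3, h4, h5, h6⟩ := glue (P := ⋂ k, T k) (S := T K) j0 hj0inj F hF1 (by
        rintro z ⟨x, hx, hxz⟩
        have h7 := hj0mem x hx
        rw [hxz] at h7
        have h8 := hF2 z
        rcases z with z | z
        · exact h8.2 h7
        · exact h8.2 h7)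
      refine ⟨j', h3, ?_, fun _ => ?_⟩
      · intro m hm x hx
        by_cases hx1 : x ∈ ⋂ k, T k
        · rw [h4 x hx1]
          exact Set.mem_iInter.1 (hj0mem x hx1) m
        · have hx2 : x ∈ (T K \ ⋂ k, T k : Set A) := ⟨hT hm hx, hx1⟩
          rw [h5 x hx2]
          exact hT' (hlev2 ⟨x, hx2⟩ m hx) (hF2 (Sum.inl ⟨x, hx2⟩)).1
      · exact mk_le_of_map (fun q => F (Sum.inr q)) (fun a b hab => Sum.inr.inj (hF1 hab))
          (fun q => ⟨(hF2 (Sum.inr q)).1, h6 q⟩)

/-- A family `T 0 ⊇ T 1 ⊇ ...` injects level by level into a family `T' 0 ⊇ T' 1 ⊇ ...` if this is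
so for the cardinalities of the levels and of the intersections. -/
theorem nested (hT : Antitone T) (hT' : Antitone T') (hc : ∀ k, #(T k) ≤ #(T' k))
    (hinf : #(⋂ k, T k : Set A) ≤ #(⋂ k, T' k : Set B)) [Nonempty B] :
    ∃ j : A → B, Set.InjOn j (T 0) ∧ ∀ m, ∀ x ∈ T m, j x ∈ T' m := by
  obtain ⟨K, hK⟩ := good_base hT hT' hc hinf
  have h0 : GoodAt T T' 0 := by
    induction K with
    | zero => exact hK
    | succ K ih => exact ih (good_step hT hT' (hc K) hK)
  obtain ⟨j, h1, h2, _⟩ := h0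
  exact ⟨j, h1, fun m => h2 m (Nat.zero_le m)⟩

end Pool.Agent.Q304.CJ
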