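import Pool.Agent.Q304.CJ.Emb
import Pool.Agent.Q304.CJ.Nested

set_option autoImplicit false

namespace Pool.Agent.Q304.CJ

universe u

variable {X : Type u}

open Cardinal

theorem per_iff {f : X ≃. X} {n k : ℕ} {x : X} (hx : x ∈ Per f n) :
    Path f k x x ↔ n ∣ k := by
  constructor
  · intro h
    have h1 : Path f ((k / n) * n) x x := path_self_mul hx.2.1 _
    have h2 : (k / n) * n ≤ k := Nat.div_mul_le_self k n
    have h3 := path_sub h2 h1 h
    have h4 : k - (k / n) * n = k % n := by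
      have := Nat.div_add_mod k n
      rw [Nat.mul_comm] at this
      omega
    rw [h4] at h3
    by_contra hcon
    exact hx.2.2 (k % n) (Nat.pos_of_ne_zero fun h => hcon (Nat.dvd_of_mod_eq_zero h))
      (Nat.mod_lt _ hx.1) h3
  · rintro ⟨m, rfl⟩
    rw [Nat.mul_comm]
    exact path_self_mul hx.2.1 m

theorem per_fwd {f : X ≃. X} {n : ℕ} {x : X} (hx : x ∈ Per f n) (k : ℕ) :
    (∃ y, Path f k x y) ∧ ∃ y, Path f k y x := by
  have h1 : Path f (k * n) x x := path_self_mul hx.2.1 k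
  have h2 : k ≤ k * n := Nat.le_mul_of_pos_right k hx.1
  exact ⟨path_shorten h2 h1, path_shorten' h2 h1⟩

theorem fwd_iff {f : X ≃. X} {k : ℕ} {x : X} (hx : x ∈ Fwd f) : Path f k x x ↔ k = 0 := by
  constructor
  · intro h
    by_contra h0
    exact (hx k).2 (Nat.pos_of_ne_zero h0) h
  · rintro rfl; rfl

theorem end_iff {f : X ≃. X} {k : ℕ} {x y : X} (hx : f x = none) :
    Path f k x y ↔ k = 0 ∧ x = y := by
  cases k with
  | zero => exact ⟨fun h => ⟨rfl, h⟩, fun h => h.2⟩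
  | succ k =>
    constructor
    · rintro ⟨z, hz, _⟩
      rw [hx] at hz; cases hz
    · rintro ⟨h, _⟩; cases h

theorem not_per_fwd {f : X ≃. X} {n : ℕ} {x : X} (hx : x ∈ Per f n) (h : x ∈ Fwd f) : False :=
  (h n).2 hx.1 hx.2.1

theorem distinct {f : X ≃. X} {P : ℕ → Type*} {Q R : Type*} (p : (Σ n, P n) → X) (q : Q → X)
    (r : R → X) (hp : ∀ z, p z ∈ Per f z.1) (hq : ∀ z, q z ∈ Fwd f) (hr : ∀ z, f (r z) = none)
    (hpi : ∀ n (a b : P n), orbit f (p ⟨n, a⟩) = orbit f (p ⟨n, b⟩) → a = b)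
    (hqi : ∀ a b, orbit f (q a) = orbit f (q b) → a = b) (hri : Function.Injective r)
    (i j : (Σ n, P n) ⊕ Q ⊕ R)
    (h : Sum.elim p (Sum.elim q r) j ∈ orbit f (Sum.elim p (Sum.elim q r) i)) : i = j := by
  rcases i with ⟨n, a⟩ | i | i <;> rcases j with ⟨m, b⟩ | j | j
  · change p ⟨m, b⟩ ∈ orbit f (p ⟨n, a⟩) at h
    obtain rfl : n = m := per_eq (per_orbit (hp ⟨n, a⟩) h) (hp ⟨m, b⟩)
    rw [hpi n a b (orbit_eq_iff.2 h)]
  · exact (not_per_fwd (per_orbit (hp ⟨n, a⟩) h) (hq j)).elim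
  · exact (not_end_of_per (per_orbit (hp ⟨n, a⟩) h) (path_zero f _) (hr j)).elim
  · exact (not_per_fwd (hp ⟨m, b⟩) (fwd_orbit (hq i) h)).elim
  · rw [hqi i j (orbit_eq_iff.2 h)]
  · exact (not_end_of_fwd (fwd_orbit (hq i) h) (path_zero f _) (hr j)).elim
  · exact (not_end_of_per (per_orbit (hp ⟨m, b⟩) (mem_orbit_symm h)) (path_zero f _) (hr i)).elim
  · exact (not_end_of_fwd (fwd_orbit (hq j) (mem_orbit_symm h)) (path_zero f _) (hr i)).elim
  · change r j ∈ orbit f (r i) at h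
    have : r i = r j := by
      obtain ⟨k, h | h⟩ := h
      · exact ((end_iff (hr i)).1 h).2
      · exact ((end_iff (hr j)).1 h).2.symm
    rw [hri this]

theorem start_exists {f : X ≃. X} {x : X} (hx : x ∈ Fwd f) (hb : x ∉ Bi f) :
    ∃ y ∈ Fwd f, orbit f y = orbit f x ∧ ∀ z, f z ≠ some y := by
  classical
  have h1 : ∃ k, ∀ y, ¬ Path f k y x := by
    by_contra hcon
    push Not at hcon
    exact hb ⟨hx, hcon⟩
  have hne := Nat.find_spec h1
  have hpos : Nat.find h1 ≠ 0 := by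
    intro h0
    rw [h0] at hne
    exact hne x rfl
  obtain ⟨m, hm⟩ := Nat.exists_eq_succ_of_ne_zero hpos
  have hmin := Nat.find_min h1 (m := m) (by omega)
  push Not at hmin
  obtain ⟨y, hy⟩ := hmin
  refine ⟨y, fwd_orbit hx ⟨m, Or.inr hy⟩, orbit_eq_iff.2 ⟨m, Or.inl hy⟩, fun z hz => ?_⟩
  rw [hm] at hne
  exact hne z ⟨y, hz, hy⟩

/-- The inequalities between the numbers of components give an embedding. -/
theorem SameLe.emb {α β : X ≃. X} (h : SameLe α β) : Emb α β := by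
  classical
  obtain ⟨hper, hbi, hfwd, hterm, hinf⟩ := h
  rcases isEmpty_or_nonempty X with hX | hX
  · exact ⟨α, fun x => hX.elim x, by ext x; exact hX.elim x⟩
  -- the injections between the sets of components
  have he : ∀ n, Nonempty ((orbit α '' Per α n : Set (Set X)) ↪
      (orbit β '' Per β n : Set (Set X))) := fun n => hper n
  let e := fun n => (he n).some
  have hBF : ∀ γ : X ≃. X, orbit γ '' Bi γ ⊆ orbit γ '' Fwd γ :=
    fun γ => Set.image_mono fun x hx => hx.1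
  obtain ⟨j, hj, hjl⟩ : ∃ j : Set X → Set X, Set.InjOn j (orbit α '' Fwd α) ∧
      (∀ O ∈ orbit α '' Fwd α, j O ∈ orbit β '' Fwd β) ∧
      (∀ O ∈ orbit α '' Bi α, j O ∈ orbit β '' Bi β) := by
    let T : (X ≃. X) → ℕ → Set (Set X) := fun γ k =>
      if k = 0 then orbit γ '' Fwd γ else orbit γ '' Bi γ
    have hT0 : ∀ γ, T γ 0 = orbit γ '' Fwd γ := fun γ => by simp [T]
    have hT1 : ∀ γ k, T γ (k + 1) = orbit γ '' Bi γ := fun γ k => by simp [T]
    have hanti : ∀ γ, Antitone (T γ) := by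
      intro γ
      refine antitone_nat_of_succ_le fun k => ?_
      cases k with
      | zero => rw [hT0, hT1]; exact hBF γ
      | succ k => rw [hT1, hT1]
    have hint : ∀ γ, ⋂ k, T γ k = orbit γ '' Bi γ := by
      intro γ
      apply subset_antisymm
      · refine (Set.iInter_subset _ 1).trans ?_
        rw [hT1]
      · refine Set.subset_iInter fun k => ?_
        cases k with
        | zero => rw [hT0]; exact hBF γ
        | succ k => rw [hT1]
    obtain ⟨j, h1, h2⟩ := nested (hanti α) (hanti β) (by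
      intro k
      cases k with
      | zero => rw [hT0, hT0]; exact hfwd
      | succ k => rw [hT1, hT1]; exact hbi) (by rw [hint, hint]; exact hbi)
    rw [hT0] at h1
    refine ⟨j, h1, ?_, ?_⟩
    · have := h2 0
      rw [hT0, hT0] at this
      exact this
    · have := h2 1
      rw [hT1, hT1] at this
      exact this
  obtain ⟨hjF, hjB⟩ := hjl
  obtain ⟨τ, hτ, hτl⟩ : ∃ τ : X → X, Set.InjOn τ (Term α 1) ∧
      ∀ k, 0 < k → ∀ t ∈ Term α k, τ t ∈ Term β k := by
    have hint : ∀ γ : X ≃. X, ⋂ k, Term γ (k + 1) = ⋂ k, Term γ k := by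
      intro γ
      apply subset_antisymm
      · refine Set.subset_iInter fun k => ?_
        exact (Set.iInter_subset _ k).trans (term_antitone (Nat.le_succ k))
      · exact Set.subset_iInter fun k => Set.iInter_subset _ (k + 1)
    obtain ⟨τ, h1, h2⟩ := nested (T := fun k => Term α (k + 1)) (T' := fun k => Term β (k + 1))
      (fun k l hkl => term_antitone (Nat.succ_le_succ hkl))
      (fun k l hkl => term_antitone (Nat.succ_le_succ hkl))
      (fun k => hterm (k + 1) (Nat.succ_pos k)) (by rw [hint, hint]; exact hinf)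
    refine ⟨τ, h1, fun k hk t ht => ?_⟩
    obtain ⟨m, rfl⟩ := Nat.exists_eq_succ_of_ne_zero hk.ne'
    exact h2 m t ht
  -- the seeds
  have hP : ∀ z : (Σ n, (orbit α '' Per α n : Set (Set X))), ∃ x x', x ∈ Per α z.1 ∧
      orbit α x = z.2.1 ∧ x' ∈ Per β z.1 ∧ orbit β x' = (e z.1 z.2).1 := by
    rintro ⟨n, O⟩
    obtain ⟨x, hx, hxO⟩ := O.2
    obtain ⟨x', hx', hxO'⟩ := (e n O).2
    exact ⟨x, x', hx, hxO, hx', hxO'⟩
  choose p p' hp1 hp2 hp3 hp4 using hP
  have hQ : ∀ O : (orbit α '' Fwd α : Set (Set X)), ∃ x x', x ∈ Fwd α ∧ orbit α x = O.1 ∧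
      x' ∈ Fwd β ∧ orbit β x' = j O.1 ∧ ∀ k y, Path α k y x → ∃ y', Path β k y' x' := by
    rintro ⟨O, hO⟩
    by_cases hOB : O ∈ orbit α '' Bi α
    · obtain ⟨x, hx, hxO⟩ := hOB
      obtain ⟨x', hx', hxO'⟩ := hjB O ⟨x, hx, hxO⟩
      exact ⟨x, x', hx.1, hxO, hx'.1, hxO', fun k y _ => hx'.2 k⟩
    · obtain ⟨x, hx, hxO⟩ := hO
      have hxb : x ∉ Bi α := fun h => hOB ⟨x, h, hxO⟩
      obtain ⟨y, hy, hyO, hys⟩ := start_exists hx hxb
      obtain ⟨x', hx', hxO'⟩ := hjF O ⟨x, hx, hxO⟩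
      refine ⟨y, x', hy, hyO.trans hxO, hx', hxO', fun k z hz => ?_⟩
      cases k with
      | zero => exact ⟨x', rfl⟩
      | succ k =>
        obtain ⟨w, _, v, hv, h⟩ := (path_add α k 1 z y).1 hz
        obtain rfl : v = y := h
        exact absurd hv (hys w)
  choose q q' hq1 hq2 hq3 hq4 hq5 using hQ
  let r : Term α 1 → X := fun t => t.1
  let r' : Term α 1 → X := fun t => τ t.1
  have hr : ∀ t, α (r t) = none := fun t => t.2.1
  have hr' : ∀ t, β (r' t) = none := fun t => (hτl 1 one_pos t.1 t.2).1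
  refine emb_of_seeds (s := Sum.elim p (Sum.elim q r)) (s' := Sum.elim p' (Sum.elim q' r'))
    ?_ ?_ ?_ ?_ ?_ ?_
  · refine distinct p q r hp1 hq1 hr ?_ ?_ Subtype.val_injective
    · intro n a b hab
      rw [hp2, hp2] at hab
      exact Subtype.ext hab
    · intro a b hab
      rw [hq2, hq2] at hab
      exact Subtype.ext hab
  · refine distinct p' q' r' hp3 hq3 hr' ?_ ?_ ?_
    · intro n a b hab
      rw [hp4, hp4] at hab
      exact (e n).injective (Subtype.ext hab)
    · intro a b hab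
      rw [hq4, hq4] at hab
      exact Subtype.ext (hj a.2 b.2 hab)
    · intro a b hab
      exact Subtype.ext (hτ a.2 b.2 hab)
  · rintro (z | z | z) k
    · exact (per_iff (hp1 z)).trans (per_iff (hp3 z)).symm
    · exact (fwd_iff (hq1 z)).trans (fwd_iff (hq3 z)).symm
    · show Path α k (r z) (r z) ↔ Path β k (r' z) (r' z)
      rw [end_iff (hr z), end_iff (hr' z)]
      simp
  · intro x y hxy
    rcases trichotomy α x with ⟨n, hx⟩ | hx | ⟨k, t, hk, ht⟩
    · refine ⟨Sum.inl ⟨n, ⟨orbit α x, x, hx, rfl⟩⟩, ?_⟩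
      show x ∈ orbit α (p _)
      rw [hp2]
      exact mem_orbit_self α x
    · refine ⟨Sum.inr (Sum.inl ⟨orbit α x, x, hx, rfl⟩), ?_⟩
      show x ∈ orbit α (q _)
      rw [hq2]
      exact mem_orbit_self α x
    · have hk0 : 1 ≤ k := by
        rcases Nat.eq_zero_or_pos k with h0 | h0
        · subst h0
          obtain rfl : x = t := hk
          rw [hxy] at ht; cases ht
        · exact h0
      refine ⟨Sum.inr (Sum.inr ⟨t, ht, path_shorten' hk0 hk⟩), ?_⟩
      exact ⟨k, Or.inr hk⟩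
  · rintro (z | z | z) k x hx
    · obtain ⟨x', hx'⟩ := (per_fwd (hp3 z) k).1
      exact ⟨x', hx', fun h => (not_end_of_per (hp1 z) hx h).elim⟩
    · obtain ⟨x', hx'⟩ := (hq3 z k).1
      exact ⟨x', hx', fun h => (not_end_of_fwd (hq1 z) hx h).elim⟩
    · obtain ⟨rfl, _⟩ := (end_iff (hr z)).1 hx
      exact ⟨r' z, rfl, fun _ => hr' z⟩
  · rintro (z | z | z) k x hx
    · exact (per_fwd (hp3 z) k).2
    · exact hq5 z k x hx
    · rcases Nat.eq_zero_or_pos k with h0 | h0
      · subst h0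
        exact ⟨r' z, rfl⟩
      · exact (hτl k h0 z.1 ⟨z.2.1, x, hx⟩).2

/-- `α` embeds into `β` if and only if `β` has at least as many components of every sort. -/
theorem emb_iff (α β : X ≃. X) : Emb α β ↔ SameLe α β := ⟨Emb.sameLe, SameLe.emb⟩

end Pool.Agent.Q304.CJ
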