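import Mathlib

/-!
# Components of partial injections

For a partial injection `f : X ≃. X` the relation `Path f k x y` says that `f^k` is defined at `x`
with value `y`.
-/

set_option autoImplicit false

namespace Pool.Agent.Q304.CJ

universe u

variable {X : Type u}

/-- `Path f k x y`: the `k`-th power of the partial injection `f` is defined at `x` and sends `x`
to `y`. -/
def Path (f : X ≃. X) : ℕ → X → X → Prop
  | 0, x, y => x = y
  | k + 1, x, y => ∃ z, f x = some z ∧ Path f k z y

/-- The component (orbit) of `x`: the points on the same path of `f`. -/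
def orbit (f : X ≃. X) (x : X) : Set X := {y | ∃ k, Path f k x y ∨ Path f k y x}

/-- Points of cycles of length `n`. -/
def Per (f : X ≃. X) (n : ℕ) : Set X :=
  {x | 0 < n ∧ Path f n x x ∧ ∀ m, 0 < m → m < n → ¬ Path f m x x}

/-- Points whose forward path is infinite (and does not repeat): the points of the right rays and
of the double rays. -/
def Fwd (f : X ≃. X) : Set X :=
  {x | ∀ k, (∃ y, Path f k x y) ∧ (0 < k → ¬ Path f k x x)}

/-- Points of double rays. -/
def Bi (f : X ≃. X) : Set X := {x | x ∈ Fwd f ∧ ∀ k, ∃ y, Path f k y x}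

/-- Points outside the domain that end a path with at least `k` steps. -/
def Term (f : X ≃. X) (k : ℕ) : Set X := {x | f x = none ∧ ∃ y, Path f k y x}

theorem path_add (f : X ≃. X) (k l : ℕ) (x y : X) :
    Path f (k + l) x y ↔ ∃ z, Path f k x z ∧ Path f l z y := by
  induction k generalizing x with
  | zero => simp [Path]
  | succ k ih =>
    rw [show k + 1 + l = (k + l) + 1 by omega]
    show (∃ z, f x = some z ∧ Path f (k + l) z y) ↔ _
    constructor
    · rintro ⟨z, hz, h⟩
      obtain ⟨w, h1, h2⟩ := (ih z).1 h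
      exact ⟨w, ⟨z, hz, h1⟩, h2⟩
    · rintro ⟨w, ⟨z, hz, h1⟩, h2⟩
      exact ⟨z, hz, (ih z).2 ⟨w, h1, h2⟩⟩

theorem path_unique {f : X ≃. X} {k : ℕ} {x y y' : X} (h : Path f k x y) (h' : Path f k x y') :
    y = y' := by
  induction k generalizing x with
  | zero => exact (show x = y from h) ▸ (show x = y' from h')
  | succ k ih =>
    obtain ⟨z, hz, h⟩ := h
    obtain ⟨z', hz', h'⟩ := h'
    rw [hz] at hz'
    obtain rfl := Option.some.inj hz'
    exact ih h h'

theorem path_inj {f : X ≃. X} {k : ℕ} {x x' y : X} (h : Path f k x y) (h' : Path f k x' y) :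
    x = x' := by
  induction k generalizing x x' with
  | zero =>
    have h1 : x = y := h
    have h2 : x' = y := h'
    rw [h1, h2]
  | succ k ih =>
    obtain ⟨z, hz, h⟩ := h
    obtain ⟨z', hz', h'⟩ := h'
    obtain rfl := ih h h'
    exact f.inj hz hz'

theorem path_zero (f : X ≃. X) (x : X) : Path f 0 x x := rfl

theorem path_one {f : X ≃. X} {x y : X} (h : f x = some y) : Path f 1 x y := ⟨y, h, rfl⟩

/-- shortening a path from the left -/
theorem path_sub {f : X ≃. X} {k l : ℕ} {x y z : X} (hkl : k ≤ l) (h : Path f k x y)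
    (h' : Path f l x z) : Path f (l - k) y z := by
  obtain ⟨m, rfl⟩ := Nat.exists_eq_add_of_le hkl
  obtain ⟨w, h1, h2⟩ := (path_add f k m x z).1 h'
  obtain rfl := path_unique h h1
  simpa using h2

/-- shortening a path from the right -/
theorem path_sub' {f : X ≃. X} {k l : ℕ} {x y z : X} (hkl : k ≤ l) (h : Path f k x z)
    (h' : Path f l y z) : Path f (l - k) y x := by
  obtain ⟨m, rfl⟩ := Nat.exists_eq_add_of_le hkl
  rw [Nat.add_comm] at h'
  obtain ⟨w, h1, h2⟩ := (path_add f m k y z).1 h'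
  obtain rfl := path_inj h h2
  simpa using h1

theorem path_trans {f : X ≃. X} {k l : ℕ} {x y z : X} (h : Path f k x y) (h' : Path f l y z) :
    Path f (k + l) x z := (path_add f k l x z).2 ⟨y, h, h'⟩

theorem mem_orbit_self (f : X ≃. X) (x : X) : x ∈ orbit f x := ⟨0, Or.inl rfl⟩

theorem mem_orbit_symm {f : X ≃. X} {x y : X} (h : y ∈ orbit f x) : x ∈ orbit f y := by
  obtain ⟨k, h | h⟩ := h
  · exact ⟨k, Or.inr h⟩
  · exact ⟨k, Or.inl h⟩

theorem mem_orbit_trans {f : X ≃. X} {x y z : X} (h : y ∈ orbit f x) (h' : z ∈ orbit f y) :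
    z ∈ orbit f x := by
  obtain ⟨k, h⟩ := h
  obtain ⟨l, h'⟩ := h'
  rcases h with h | h <;> rcases h' with h' | h'
  · exact ⟨k + l, Or.inl (path_trans h h')⟩
  · rcases le_total k l with hkl | hkl
    · exact ⟨l - k, Or.inr (path_sub' hkl h h')⟩
    · exact ⟨k - l, Or.inl (path_sub' hkl h' h)⟩
  · rcases le_total k l with hkl | hkl
    · exact ⟨l - k, Or.inl (path_sub hkl h h')⟩
    · exact ⟨k - l, Or.inr (path_sub hkl h' h)⟩
  · exact ⟨l + k, Or.inr (path_trans h' h)⟩

theorem orbit_eq_iff {f : X ≃. X} {x y : X} : orbit f x = orbit f y ↔ y ∈ orbit f x := by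
  constructor
  · intro h; rw [h]; exact mem_orbit_self f y
  · intro h
    ext z
    exact ⟨fun hz => mem_orbit_trans (mem_orbit_symm h) hz, fun hz => mem_orbit_trans h hz⟩

/-- `f` moves every point of the component of a point with an infinite or periodic forward path -/
theorem path_self_transfer {f : X ≃. X} {x y : X} (h : y ∈ orbit f x) {n : ℕ}
    (hn : Path f n x x) : Path f n y y := by
  obtain ⟨k, h | h⟩ := h
  · have h1 : Path f (n + k) x y := path_trans hn h
    have h2 := path_sub (Nat.le_add_left k n) h h1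
    simpa using h2
  · have h1 : Path f (k + n) y x := path_trans h hn
    have h2 := path_sub' (Nat.le_add_right k n) h h1
    simpa using h2

theorem path_self_mul {f : X ≃. X} {x : X} {n : ℕ} (hn : Path f n x x) (m : ℕ) :
    Path f (m * n) x x := by
  induction m with
  | zero => simpa using path_zero f x
  | succ m ih => rw [Nat.succ_mul]; exact path_trans ih hn

theorem path_shorten {f : X ≃. X} {k l : ℕ} {x z : X} (hkl : k ≤ l) (h : Path f l x z) :
    ∃ y, Path f k x y := by
  obtain ⟨m, rfl⟩ := Nat.exists_eq_add_of_le hkl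
  obtain ⟨w, h1, _⟩ := (path_add f k m x z).1 h
  exact ⟨w, h1⟩

theorem path_shorten' {f : X ≃. X} {k l : ℕ} {x z : X} (hkl : k ≤ l) (h : Path f l x z) :
    ∃ y, Path f k y z := by
  obtain ⟨m, rfl⟩ := Nat.exists_eq_add_of_le hkl
  rw [Nat.add_comm] at h
  obtain ⟨w, _, h1⟩ := (path_add f m k x z).1 h
  exact ⟨w, h1⟩

theorem per_orbit {f : X ≃. X} {n : ℕ} {x y : X} (hx : x ∈ Per f n) (h : y ∈ orbit f x) :
    y ∈ Per f n :=
  ⟨hx.1, path_self_transfer h hx.2.1, fun m h0 hm hp =>
    hx.2.2 m h0 hm (path_self_transfer (mem_orbit_symm h) hp)⟩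

theorem fwd_orbit {f : X ≃. X} {x y : X} (hx : x ∈ Fwd f) (h : y ∈ orbit f x) : y ∈ Fwd f := by
  intro k
  refine ⟨?_, fun hk hp => (hx k).2 hk (path_self_transfer (mem_orbit_symm h) hp)⟩
  obtain ⟨l, h | h⟩ := h
  · obtain ⟨z, hz⟩ := (hx (l + k)).1
    have := path_sub (Nat.le_add_right l k) h hz
    exact ⟨z, by simpa using this⟩
  · obtain ⟨z, hz⟩ := (hx k).1
    exact path_shorten (Nat.le_add_left k l) (path_trans h hz)

theorem bi_orbit {f : X ≃. X} {x y : X} (hx : x ∈ Bi f) (h : y ∈ orbit f x) : y ∈ Bi f := by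
  refine ⟨fwd_orbit hx.1 h, fun k => ?_⟩
  obtain ⟨l, h | h⟩ := h
  · obtain ⟨z, hz⟩ := hx.2 k
    exact path_shorten' (Nat.le_add_right k l) (path_trans hz h)
  · obtain ⟨z, hz⟩ := hx.2 (k + l)
    have := path_sub' (Nat.le_add_left l k) h hz
    exact ⟨z, by simpa using this⟩

/-- Every point is periodic, or its forward path is infinite, or its forward path ends. -/
theorem trichotomy (f : X ≃. X) (x : X) :
    (∃ n, x ∈ Per f n) ∨ x ∈ Fwd f ∨ ∃ k y, Path f k x y ∧ f y = none := by
  classical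
  by_cases h1 : ∃ k, 0 < k ∧ Path f k x x
  · left
    refine ⟨Nat.find h1, (Nat.find_spec h1).1, (Nat.find_spec h1).2, fun m h0 hm hp => ?_⟩
    exact Nat.find_min h1 hm ⟨h0, hp⟩
  · right
    push Not at h1
    by_cases h2 : ∀ k, ∃ y, Path f k x y
    · left
      exact fun k => ⟨h2 k, fun hk => h1 k hk⟩
    · right
      push Not at h2
      have hne := Nat.find_spec h2
      have hpos : Nat.find h2 ≠ 0 := by
        intro h0
        rw [h0] at hne
        exact hne x rfl
      obtain ⟨m, hm⟩ := Nat.exists_eq_succ_of_ne_zero hpos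
      have hmin := Nat.find_min h2 (m := m) (by omega)
      push Not at hmin
      obtain ⟨y, hy⟩ := hmin
      refine ⟨m, y, hy, ?_⟩
      cases hfy : f y with
      | none => rfl
      | some z =>
        exfalso
        rw [hm] at hne
        exact hne z (path_trans hy (path_one hfy))

theorem not_end_of_per {f : X ≃. X} {n k : ℕ} {x y : X} (hx : x ∈ Per f n)
    (h : Path f k x y) : f y ≠ none := by
  have h2 := per_orbit hx ⟨k, Or.inl h⟩
  obtain ⟨n, rfl⟩ : ∃ m, n = m + 1 := ⟨n - 1, by have := hx.1; omega⟩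
  obtain ⟨z, hz, _⟩ := h2.2.1
  rw [hz]; simp

theorem not_end_of_fwd {f : X ≃. X} {k : ℕ} {x y : X} (hx : x ∈ Fwd f)
    (h : Path f k x y) : f y ≠ none := by
  have h2 := fwd_orbit hx ⟨k, Or.inl h⟩
  obtain ⟨w, z, hz, _⟩ := (h2 1).1
  rw [hz]; simp

theorem per_eq {f : X ≃. X} {n m : ℕ} {x : X} (hx : x ∈ Per f n) (hy : x ∈ Per f m) : n = m := by
  rcases lt_trichotomy n m with h | h | h
  · exact absurd hx.2.1 (hy.2.2 n hx.1 h)
  · exact h
  · exact absurd hy.2.1 (hx.2.2 m hy.1 h)

theorem term_antitone {f : X ≃. X} {k l : ℕ} (h : k ≤ l) : Term f l ⊆ Term f k := by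
  rintro x ⟨h1, y, hy⟩
  exact ⟨h1, path_shorten' h hy⟩

end Pool.Agent.Q304.CJ
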